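import Mathlib
import Pool.Agent.Helper635.LLL

set_option autoImplicit false
open Classical

namespace Pool.Agent.H403R5.LAC

open Pool.Agent.Helper635.LLL

theorem exists_rep {V : Type} (f : Equiv.Perm V) :
    ∃ rep : V → V, (∀ v, f.SameCycle v (rep v)) ∧ ∀ v w, f.SameCycle v w → rep v = rep w := by
  refine ⟨fun v => Quotient.out (Quotient.mk (Equiv.Perm.SameCycle.setoid f) v), ?_, ?_⟩
  · intro v
    exact Equiv.Perm.SameCycle.symm (Quotient.mk_out (s := Equiv.Perm.SameCycle.setoid f) v)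
  · intro v w h
    have h1 : Quotient.mk (Equiv.Perm.SameCycle.setoid f) v =
        Quotient.mk (Equiv.Perm.SameCycle.setoid f) w := Quotient.sound h
    simp only [h1]

theorem pow_inj {V : Type} (f : Equiv.Perm V) (M : ℕ)
    (h : ∀ (v : V) (n : ℕ), 0 < n → n < M → (f ^ n) v ≠ v) (t : V) (a b : ℕ)
    (ha : a < M) (hb : b < M) (hab : (f ^ a) t = (f ^ b) t) : a = b := by
  wlog hle : a ≤ b generalizing a b
  · exact (this b a hb ha hab.symm (by omega)).symm
  by_contra hne
  have h1 : 0 < b - a := by omega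
  have h2 : b - a < M := by omega
  apply h ((f ^ a) t) (b - a) h1 h2
  rw [← Equiv.Perm.mul_apply, ← pow_add, Nat.sub_add_cancel hle, hab]

theorem cnt_two {T C : Type} [Fintype T] [Fintype C] (q1 q2 : T) (hq : q1 ≠ q2) (a b : C) :
    cnt (fun ω : T → C => ω q1 = a ∧ ω q2 = b) * (Fintype.card C) ^ 2 ≤
      Fintype.card (T → C) := by
  have h : ((ev (fun ω : T → C => ω q1 = a ∧ ω q2 = b)) ×ˢ
      (Finset.univ : Finset (C × C))).card ≤ (Finset.univ : Finset (T → C)).card := by
    apply Finset.card_le_card_of_injOn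
      (fun w => Function.update (Function.update w.1 q1 w.2.1) q2 w.2.2)
    · intro w _
      exact Finset.mem_coe.2 (Finset.mem_univ _)
    · rintro ⟨ω, c, c'⟩ h1 ⟨ω', e, e'⟩ h2 heq
      rw [Finset.mem_coe, Finset.mem_product, mem_ev] at h1 h2
      obtain ⟨⟨h1a, h1b⟩, -⟩ := h1
      obtain ⟨⟨h2a, h2b⟩, -⟩ := h2
      simp only at h1a h1b h2a h2b heq
      have k1 : c' = e' := by
        have := congrFun heq q2
        simpa using this
      have k2 : c = e := by
        have := congrFun heq q1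
        simpa [Function.update_of_ne hq] using this
      have k3 : ω = ω' := by
        funext x
        by_cases hx1 : x = q1
        · subst hx1; rw [h1a, h2a]
        · by_cases hx2 : x = q2
          · subst hx2; rw [h1b, h2b]
          · have := congrFun heq x
            simpa [Function.update_of_ne hx1, Function.update_of_ne hx2] using this
      subst k1; subst k2; subst k3; rfl
  rw [Finset.card_product, Finset.card_univ, Fintype.card_prod, Finset.card_univ] at h
  rw [cnt, pow_two]; exact h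

theorem cnt_two_real {T C : Type} [Fintype T] [Fintype C] (M : ℕ)
    (hC : Fintype.card C = M) (hM : 0 < M) (q1 q2 : T) (hq : q1 ≠ q2) (a b : C) :
    (cnt (fun ω : T → C => ω q1 = a ∧ ω q2 = b) : ℝ) ≤
      1 / (M : ℝ) ^ 2 * Fintype.card (T → C) := by
  have h1 := cnt_two q1 q2 hq a b
  rw [hC] at h1
  have h2 : (cnt (fun ω : T → C => ω q1 = a ∧ ω q2 = b) : ℝ) * (M : ℝ) ^ 2 ≤
      Fintype.card (T → C) := by
    exact_mod_cast h1
  have h3 : (0 : ℝ) < (M : ℝ) ^ 2 := by
    have : (0 : ℝ) < M := by exact_mod_cast hM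
    positivity
  rw [one_div, inv_mul_eq_div, le_div_iff₀ h3]
  exact h2

theorem filter_sub {ι T : Type} (I : Finset ι) (S : ι → Finset T) (e : ι) (A : Finset ι)
    (h : ∀ e' ∈ I, (∃ q ∈ S e, q ∈ S e') → e' ∈ A) :
    (I.filter (fun j => ¬ Disjoint (S e) (S j))).card ≤ A.card := by
  apply Finset.card_le_card
  intro e' he'
  rw [Finset.mem_filter] at he'
  obtain ⟨h1, h2⟩ := he'
  rw [Finset.not_disjoint_iff] at h2
  exact h e' h1 h2

theorem card_fun_pos {T C : Type} [Fintype T] [Fintype C] [Nonempty C] :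
    0 < Fintype.card (T → C) := Fintype.card_pos

variable {V : Type} {d : ℕ}

def pt (s : Fin d → Equiv.Perm V) (q : Fin d × V) (a : Fin (64 * d)) : V :=
  (s q.1 ^ (a : ℕ)) q.2

def cf (s : Fin d → Equiv.Perm V) (i : Fin d) (x : V) (j : Fin d) (y : V) : Prop :=
  x = y ∨ x = s j y ∨ s i x = y ∨ s i x = s j y

theorem cf_symm {s : Fin d → Equiv.Perm V} {i : Fin d} {x : V} {j : Fin d} {y : V}
    (h : cf s i x j y) : cf s j y i x := by
  rcases h with h | h | h | h
  · exact Or.inl h.symm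
  · exact Or.inr (Or.inr (Or.inl h.symm))
  · exact Or.inr (Or.inl h.symm)
  · exact Or.inr (Or.inr (Or.inr h.symm))

noncomputable def kk (s : Fin d → Equiv.Perm V) (i : Fin d) (x : V) (j : Fin d) (y : V) :
    Fin 4 :=
  if x = y then 0 else if x = s j y then 1 else if s i x = y then 2 else 3

noncomputable def solve (s : Fin d → Equiv.Perm V) (i : Fin d) (x : V) (j : Fin d)
    (k : Fin 4) : V :=
  if k = 0 then x else if k = 1 then (s j).symm x else if k = 2 then s i x
    else (s j).symm (s i x)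

theorem solve_kk {s : Fin d → Equiv.Perm V} {i : Fin d} {x : V} {j : Fin d} {y : V}
    (h : cf s i x j y) : solve s i x j (kk s i x j y) = y := by
  unfold kk
  split_ifs with h1 h2 h3
  · simp [solve, h1]
  · have e : solve s i x j 1 = (s j).symm x := by simp [solve]
    rw [e, h2, Equiv.symm_apply_apply]
  · have e : solve s i x j 2 = s i x := by simp [solve]
    rw [e, h3]
  · have e : solve s i x j 3 = (s j).symm (s i x) := by simp [solve]
    rcases h with h | h | h | h
    · exact absurd h h1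
    · exact absurd h h2
    · exact absurd h h3
    · rw [e, h, Equiv.symm_apply_apply]

variable [Fintype V]

noncomputable def II (s : Fin d → Equiv.Perm V) (rep : Fin d → V → V) :
    Finset (((Fin d × V) × Fin (64 * d)) × ((Fin d × V) × Fin (64 * d))) :=
  Finset.univ.filter fun e => rep e.1.1.1 e.1.1.2 = e.1.1.2 ∧ rep e.2.1.1 e.2.1.2 = e.2.1.2 ∧
    e.1.1 ≠ e.2.1 ∧ cf s e.1.1.1 (pt s e.1.1 e.1.2) e.2.1.1 (pt s e.2.1 e.2.2)

theorem mem_II {s : Fin d → Equiv.Perm V} {rep : Fin d → V → V}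
    {e : ((Fin d × V) × Fin (64 * d)) × ((Fin d × V) × Fin (64 * d))} :
    e ∈ II s rep ↔ (rep e.1.1.1 e.1.1.2 = e.1.1.2 ∧ rep e.2.1.1 e.2.1.2 = e.2.1.2 ∧
    e.1.1 ≠ e.2.1 ∧ cf s e.1.1.1 (pt s e.1.1 e.1.2) e.2.1.1 (pt s e.2.1 e.2.2)) := by
  rw [II, Finset.mem_filter]
  exact ⟨fun h => h.2, fun h => ⟨Finset.mem_univ _, h⟩⟩

theorem count1 (s : Fin d → Equiv.Perm V) (rep : Fin d → V → V)
    (hlen : ∀ (i : Fin d) (v : V) (n : ℕ), 0 < n → n < 64 * d → (s i ^ n) v ≠ v)
    (hrep2 : ∀ i v w, (s i).SameCycle v w → rep i v = rep i w) (q : Fin d × V) :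
    ((II s rep).filter fun e => e.1.1 = q).card ≤ 256 * d ^ 2 := by
  have h : ((II s rep).filter fun e => e.1.1 = q).card ≤
      (Finset.univ : Finset (Fin (64 * d) × Fin d × Fin 4)).card := by
    apply Finset.card_le_card_of_injOn (fun e => (e.1.2, e.2.1.1,
      kk s e.1.1.1 (pt s e.1.1 e.1.2) e.2.1.1 (pt s e.2.1 e.2.2)))
    · intro w _
      exact Finset.mem_coe.2 (Finset.mem_univ _)
    · rintro ⟨⟨q1, a⟩, ⟨⟨j, t⟩, b⟩⟩ he ⟨⟨q1', a'⟩, ⟨⟨j', t'⟩, b'⟩⟩ he' heq
      rw [Finset.mem_coe, Finset.mem_filter, mem_II] at he he'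
      obtain ⟨⟨-, h2, -, h4⟩, h5⟩ := he
      obtain ⟨⟨-, h2', -, h4'⟩, h5'⟩ := he'
      simp only at h2 h4 h5 h2' h4' h5'
      simp only [Prod.mk.injEq] at heq
      subst h5
      subst h5'
      obtain ⟨k1, k2, k3⟩ := heq
      subst k1
      subst k2
      have hy : pt s (j, t) b = pt s (j, t') b' := by
        rw [← solve_kk h4, ← solve_kk h4', k3]
      have ht : t = t' := by
        have e1 : (s j).SameCycle t (pt s (j, t) b) := ⟨(b : ℕ), by simp [pt]⟩
        have e2 : (s j).SameCycle t' (pt s (j, t') b') := ⟨(b' : ℕ), by simp [pt]⟩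
        rw [← h2, ← h2', hrep2 j _ _ e1, hrep2 j _ _ e2, hy]
      subst ht
      have hb : b = b' := by
        apply Fin.ext
        exact pow_inj (s j) (64 * d) (hlen j) t b b' b.2 b'.2 hy
      subst hb
      rfl
  refine h.trans (le_of_eq ?_)
  rw [Finset.card_univ, Fintype.card_prod, Fintype.card_prod, Fintype.card_fin,
    Fintype.card_fin, Fintype.card_fin]
  ring

theorem count2 (s : Fin d → Equiv.Perm V) (rep : Fin d → V → V)
    (hlen : ∀ (i : Fin d) (v : V) (n : ℕ), 0 < n → n < 64 * d → (s i ^ n) v ≠ v)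
    (hrep2 : ∀ i v w, (s i).SameCycle v w → rep i v = rep i w) (q : Fin d × V) :
    ((II s rep).filter fun e => e.2.1 = q).card ≤ 256 * d ^ 2 := by
  refine le_trans ?_ (count1 s rep hlen hrep2 q)
  apply Finset.card_le_card_of_injOn Prod.swap
  · intro e he
    rw [Finset.mem_coe, Finset.mem_filter, mem_II] at he ⊢
    obtain ⟨⟨h1, h2, h3, h4⟩, h5⟩ := he
    exact ⟨⟨h2, h1, h3.symm, cf_symm h4⟩, h5⟩
  · exact Prod.swap_injective.injOn

theorem pick {V : Type} [Finite V] (d : Nat) (hd : 1 <= d) (s : Fin d -> Equiv.Perm V)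
    (hlen : forall (i : Fin d) (v : V) (n : Nat), 0 < n -> n < 64 * d -> (s i ^ n) v ≠ v) :
    exists X : Fin d -> Set V, (forall i v, ∃ x ∈ X i, (s i).SameCycle v x) ∧
      (forall i j x y, x ∈ X i -> y ∈ X j -> (i ≠ j ∨ x ≠ y) ->
        x ≠ y ∧ x ≠ s j y ∧ s i x ≠ y ∧ s i x ≠ s j y) := by
  have : Fintype V := Fintype.ofFinite V
  choose rep hrep1 hrep2 using fun i => exists_rep (s i)
  have hM : 0 < 64 * d := by omega
  obtain ⟨ω, hω⟩ := lll (T := Fin d × V) (C := Fin (64 * d)) (II s rep)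
    (fun e ω => ω e.1.1 = e.1.2 ∧ ω e.2.1 = e.2.2) (fun e => {e.1.1, e.2.1})
    (by
      intro e _ ω ω' h hB
      have e1 := h e.1.1 (by simp)
      have e2 := h e.2.1 (by simp)
      exact ⟨e1 ▸ hB.1, e2 ▸ hB.2⟩)
    (1 / ((64 * d : ℕ) : ℝ) ^ 2) (1024 * d ^ 2) (by positivity)
    (by
      intro e he
      rw [mem_II] at he
      exact cnt_two_real (64 * d) (Fintype.card_fin _) hM e.1.1 e.2.1 he.2.2.1 e.1.2 e.2.2)
    (by
      intro e he
      refine le_trans (filter_sub (II s rep) (fun e => {e.1.1, e.2.1}) e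
        ((((II s rep).filter fun e' => e'.1.1 = e.1.1) ∪
        ((II s rep).filter fun e' => e'.1.1 = e.2.1)) ∪
        (((II s rep).filter fun e' => e'.2.1 = e.1.1) ∪
        ((II s rep).filter fun e' => e'.2.1 = e.2.1))) ?_) ?_
      · rintro e' h1 ⟨q, hq1, hq2⟩
        simp only [Finset.mem_insert, Finset.mem_singleton] at hq1 hq2
        simp only [Finset.mem_union, Finset.mem_filter]
        rcases hq1 with hq1 | hq1 <;> rcases hq2 with hq2 | hq2 <;>
          rw [hq1] at hq2 <;> simp [h1, hq2]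
      · refine (Finset.card_union_le _ _).trans ?_
        have c1 := Finset.card_union_le ((II s rep).filter fun e' => e'.1.1 = e.1.1)
          ((II s rep).filter fun e' => e'.1.1 = e.2.1)
        have c2 := Finset.card_union_le ((II s rep).filter fun e' => e'.2.1 = e.1.1)
          ((II s rep).filter fun e' => e'.2.1 = e.2.1)
        have d1 := count1 s rep hlen hrep2 e.1.1
        have d2 := count1 s rep hlen hrep2 e.2.1
        have d3 := count2 s rep hlen hrep2 e.1.1
        have d4 := count2 s rep hlen hrep2 e.2.1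
        omega)
    (by
      have hd' : (0 : ℝ) < d := by exact_mod_cast hd
      push_cast
      have : 4 * (1 / (64 * (d : ℝ)) ^ 2) * (1024 * d ^ 2) = 1 := by
        field_simp
        norm_num
      linarith)
    (by nlinarith)
    (by
      have : Nonempty (Fin (64 * d)) := ⟨⟨0, hM⟩⟩
      exact card_fun_pos)
  refine ⟨fun i => {x | ∃ r, rep i r = r ∧ x = pt s (i, r) (ω (i, r))}, ?_, ?_⟩
  · intro i v
    refine ⟨pt s (i, rep i v) (ω (i, rep i v)), ⟨rep i v, (hrep2 i _ _ (hrep1 i v)).symm, rfl⟩, ?_⟩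
    exact (hrep1 i v).trans ⟨((ω (i, rep i v) : ℕ) : ℤ), by simp [pt]⟩
  · rintro i j x y ⟨r, hr, rfl⟩ ⟨t, ht, rfl⟩ hne
    have hqt : ((i, r) : Fin d × V) ≠ (j, t) := by
      intro h
      rw [Prod.mk.injEq] at h
      obtain ⟨rfl, rfl⟩ := h
      rcases hne with hne | hne
      · exact hne rfl
      · exact hne rfl
    have hn : ¬ cf s i (pt s (i, r) (ω (i, r))) j (pt s (j, t) (ω (j, t))) := by
      intro hc
      exact hω (((i, r), ω (i, r)), ((j, t), ω (j, t))) (mem_II.2 ⟨hr, ht, hqt, hc⟩) ⟨rfl, rfl⟩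
    unfold cf at hn
    exact ⟨fun h => hn (Or.inl h), fun h => hn (Or.inr (Or.inl h)),
      fun h => hn (Or.inr (Or.inr (Or.inl h))), fun h => hn (Or.inr (Or.inr (Or.inr h)))⟩

end Pool.Agent.H403R5.LAC
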